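import Pool.Agent.H694.NK.Final

/-!
# MP_6e5bed_ag: the noncommutative Chow motive of a variety is Kimura-finite only if its Chow motive
is
-/

open CategoryTheory AlgebraicGeometry

universe u v w

namespace Pool.Agent.Results.MP_6e5bed_ag.ConverseForVarieties

open Pool.Agent.H914 Pool.Agent.H914.VarClass Pool.Agent.H914.VarClass.Obj Pool.Agent.W492.BB
  Pool.Agent.W550.Corr Pool.Agent.TH133 Pool.Agent.TH829.Prime Pool.Agent.TH829.Kim
  Pool.Agent.H694.NK

theorem result {k : Type u} [Field k] {𝒱 : VarClass k} (C : TheoryData.{u, v, 0} 𝒱 ℚ)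
    [IsChowProj C] (X : 𝒱.Obj) (n m : ℕ) (hn : 1 ≤ n) (hm : 1 ≤ m) :
    -- the noncommutative Chow motive of `X` splits into a part with `Λ^n = 0` and a part with
    -- `Sym^m = 0` iff the Chow motive of `X` does
    (NCKimura C X n m ↔ ChowKimura C X n m) ∧
    -- more precisely, every such decomposition of the noncommutative motive is conjugate, under an
    -- automorphism of the noncommutative motive, to a decomposition of the Chow motive
    (∀ e : C.A (X.prod X), C.comp e e = e →
      (∀ (W : 𝒱.Obj) (x y : Fin n → (W ⟶ X)), altPower C e x y = 0) →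
      (∀ (W : 𝒱.Obj) (x y : Fin m → (W ⟶ X)), symPower C (dg C X - e) x y = 0) →
      ∃ f u v : C.A (X.prod X), C.Deg X.dim f ∧ C.comp f f = f ∧ C.comp u v = dg C X ∧
        C.comp v u = dg C X ∧ f = C.comp v (C.comp e u)) :=
  ⟨nc_iff X hn hm, fun _ he h1 h2 => conj_homogeneous he hn hm h1 h2⟩

end Pool.Agent.Results.MP_6e5bed_ag.ConverseForVarieties
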