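import Pool.Agent.H694.NK.Summand

/-!
# MP_6e5bed_ag: Kimura-finiteness of Chow motives passes to noncommutative direct summands
-/

open CategoryTheory AlgebraicGeometry

universe u v w

namespace Pool.Agent.Results.MP_6e5bed_ag.NoncommutativeSummands

open Pool.Agent.H914 Pool.Agent.H914.VarClass Pool.Agent.H914.VarClass.Obj Pool.Agent.W492.BB
  Pool.Agent.W550.Corr Pool.Agent.TH133 Pool.Agent.TH829.Prime Pool.Agent.TH829.Kim
  Pool.Agent.H694.NK

theorem result {k : Type u} [Field k] {𝒱 : VarClass k} (C : TheoryData.{u, v, 0} 𝒱 ℚ)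
    [IsChowProj C] (X Y : 𝒱.Obj)
    -- correspondences of all degrees with `b ∘ a = 1`: the noncommutative Chow motive of `X` is a
    -- direct summand of the one of `Y` (for example if `X` and `Y` are derived equivalent)
    (a : C.A (X.prod Y)) (b : C.A (Y.prod X)) (hab : C.comp a b = dg C X)
    (n m : ℕ) (hn : 1 ≤ n) (hm : 1 ≤ m) (h : ChowKimura C Y n m) : ChowKimura C X n m :=
  (nc_iff X hn hm).1 (nc_summand a b hab hn hm ((nc_iff Y hn hm).2 h))

end Pool.Agent.Results.MP_6e5bed_ag.NoncommutativeSummands
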